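import Mathlib
import Pool.Agent.Helper12_WBX.Stmts

/-! Module BIT of squad WBX: the size of the value of a formula. -/

set_option autoImplicit false

namespace Pool.Agent.WBX.H76

open Pool.Agent.WBX

theorem leaves_pos (f : Fm) : 1 ≤ f.leaves := by
  induction f with
  | zero => simp [Fm.leaves]
  | one => simp [Fm.leaves]
  | var v => simp [Fm.leaves]
  | add f g hf hg => simp only [Fm.leaves]; omega
  | sub f g hf hg => simp only [Fm.leaves]; omega
  | mul f g hf hg => simp only [Fm.leaves]; omega

theorem sum_le_prod (P Q : ℕ) (hP : 2 ≤ P) (hQ : 2 ≤ Q) : P + Q ≤ P * Q := by nlinarith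

theorem two_le_pow (L n : ℕ) (hn : 1 ≤ n) : 2 ≤ (L + 2) ^ n :=
  le_trans (by omega) (le_self_pow₀ (by omega : 1 ≤ L + 2) (by omega : n ≠ 0))

theorem bit : BitStmt := by
  intro f L x hx
  induction f with
  | zero => simp [Fm.eval]
  | one =>
    simp only [Fm.eval, Fm.leaves]
    norm_num
  | var v =>
    simp only [Fm.eval, Fm.leaves, Int.natAbs_natCast, pow_one]
    exact le_trans (hx v) (by omega)
  | add f g hf hg =>
    simp only [Fm.eval, Fm.leaves, pow_add]
    refine le_trans (Int.natAbs_add_le _ _) (le_trans (add_le_add hf hg) ?_)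
    exact sum_le_prod _ _ (two_le_pow L _ (leaves_pos f)) (two_le_pow L _ (leaves_pos g))
  | sub f g hf hg =>
    simp only [Fm.eval, Fm.leaves, pow_add]
    refine le_trans (Int.natAbs_sub_le _ _) (le_trans (add_le_add hf hg) ?_)
    exact sum_le_prod _ _ (two_le_pow L _ (leaves_pos f)) (two_le_pow L _ (leaves_pos g))
  | mul f g hf hg =>
    simp only [Fm.eval, Fm.leaves, pow_add]
    rw [Int.natAbs_mul]
    exact Nat.mul_le_mul hf hg

end Pool.Agent.WBX.H76
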